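import Pool.Agent.Q298.Excl.Pow

/-!
# MP_8cded5_pr: exclusion processes without stationary profile measures

For irreducible step laws `p` on `ℤ` with finite first absolute moment whose left tail is heavy
(in particular whenever `p (-k) ≥ c * k ^ (-α)` for all large `k`, for some
`2 < α < (3 + √5) / 2`), no stationary distribution of the exclusion process with kernel
`p (y - x)` has occupation probabilities tending to `0` at `-∞` and to `1` at `+∞`.
-/

open Set Filter Topology MeasureTheory ProbabilityTheory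
open scoped NNReal

namespace Pool.Agent.Results.MP_8cded5_pr.NoProfileMeasure

/-- Configurations: `η x = true` means that the site `x` is occupied. -/
abbrev Config : Type := ℤ → Bool

/-- The result of an attempted jump from `x` to `y`: the particle at `x` moves to `y` if there is
a particle at `x` and `y` is vacant; otherwise nothing happens. -/
def hop (x y : ℤ) (η : Config) : Config :=
  if η x = true ∧ η y = false then
    Function.update (Function.update η x false) y true
  else η

/-- `f` depends only on the occupation of finitely many sites. -/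
def Cylinder (f : Config → ℝ) : Prop :=
  ∃ A : Finset ℤ, ∀ η ζ : Config, (∀ x ∈ A, η x = ζ x) → f η = f ζ

/-- The generator of the exclusion process with kernel `p (y - x)`:
`gen p f η = ∑_{x, y} p (y - x) (f (hop x y η) - f η)`. -/
noncomputable def gen (p : ℤ → ℝ) (f : Config → ℝ) (η : Config) : ℝ :=
  ∑' b : ℤ × ℤ, p (b.2 - b.1) * (f (hop b.1 b.2 η) - f η)

/-- `p` is a probability distribution on `ℤ` with finite first absolute moment, and the random
walk with step distribution `p` is irreducible. -/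
structure StepLaw (p : ℤ → ℝ) : Prop where
  nonneg : ∀ k, 0 ≤ p k
  sum : HasSum p 1
  moment : Summable fun k : ℤ => |(k : ℝ)| * p k
  irred : AddSubmonoid.closure {k : ℤ | 0 < p k} = ⊤

/-- Hypothesis (H) of the problem (together with the standing assumptions of `StepLaw`): finite
first absolute moment, positive drift, infinite second moment of the left tail. -/
structure HypH (p : ℤ → ℝ) : Prop extends StepLaw p where
  drift : 0 < ∑' k : ℤ, (k : ℝ) * p k
  left_second_moment : ¬ Summable fun k : ℕ => (k : ℝ) ^ 2 * p (-(k : ℤ))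

/-- The two limits in the problem. -/
def Profile (μ : Measure Config) : Prop :=
  Tendsto (fun x : ℤ => μ {η | η x = true}) atBot (𝓝 0) ∧
    Tendsto (fun x : ℤ => μ {η | η x = true}) atTop (𝓝 1)

/-- Infinitesimal invariance: the generator has mean zero on every cylinder function. -/
def InfInvariant (p : ℤ → ℝ) (μ : Measure Config) : Prop :=
  ∀ f : Config → ℝ, Cylinder f → ∫ η, gen p f η ∂μ = 0

/-- `P` is a family of transition probabilities (a Markov semigroup) on configurations whose
generator acts on cylinder functions as `gen p`, the derivative at time `0+` being uniform in the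
configuration. The transition probabilities of the exclusion process with kernel `p (y - x)` have
these properties. -/
structure ExclusionSemigroup (p : ℤ → ℝ) (P : ℝ≥0 → Kernel Config Config) : Prop where
  markov : ∀ t, IsMarkovKernel (P t)
  zero : P 0 = Kernel.id
  add : ∀ s t, P (s + t) = P t ∘ₖ P s
  generator : ∀ f : Config → ℝ, Cylinder f →
    TendstoUniformly (fun (t : ℝ≥0) (η : Config) => (∫ ζ, f ζ ∂(P t η) - f η) / t)
      (gen p f) (𝓝[>] 0)

/-- A heavy left tail: for every `C` there are a time scale `t` and a finite set `J` of distances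
in `[C, t / C]` such that `t * |J| * p (-j) ≥ C` for all `j ∈ J` and
`t * |J| * ∑_{k ≥ t} p (-k) ≥ C`. -/
def LeftHeavy (p : ℤ → ℝ) : Prop :=
  ∀ C : ℝ, ∃ (t : ℕ) (J : Finset ℕ), (∀ j ∈ J, C ≤ j ∧ C * j ≤ t) ∧
    (∀ j ∈ J, C ≤ t * J.card * p (-(j : ℤ))) ∧
    C ≤ t * J.card * ∑' k : ℕ, p (-((t : ℤ) + k))

/-- `∑_{n ≥ 1} n ^ (-s)` -/
noncomputable def zetaSum (s : ℝ) : ℝ := ∑' n : ℕ, ((n : ℝ) + 1) ^ (-s)

/-- The explicit kernels: `p (-k) = κ * k ^ (-α)` for `k ≥ 1` with
`κ = 1 / (4 * ∑_{n ≥ 1} n ^ (1 - α))`, the remaining mass at `1`, and `p k = 0` for all other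
`k`. -/
noncomputable def powKernel (α : ℝ) (k : ℤ) : ℝ :=
  if k < 0 then (1 / (4 * zetaSum (α - 1))) * (-(k : ℝ)) ^ (-α)
  else if k = 1 then 1 - (1 / (4 * zetaSum (α - 1))) * zetaSum α
  else 0

/-! ### Translation to the helper files -/

section bridge

open Pool.Agent.Q298.Excl

lemma hop_eq (b : ℤ × ℤ) (η : Config) : hop b.1 b.2 η = mv b η := by
  funext z
  unfold hop mv
  by_cases h : η b.1 = true ∧ η b.2 = false
  · rw [if_pos h]
    by_cases h2 : z = b.2
    · subst h2
      simp [h.1]
    · rw [Function.update_of_ne h2, if_neg h2]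
      by_cases h1 : z = b.1
      · subst h1
        simp [h.2]
      · rw [Function.update_of_ne h1, if_neg h1]
  · rw [if_neg h]
    by_cases h2 : z = b.2
    · subst h2
      rw [if_pos rfl]
      revert h
      cases η b.1 <;> cases η b.2 <;> simp
    · rw [if_neg h2]
      by_cases h1 : z = b.1
      · subst h1
        rw [if_pos rfl]
        revert h
        cases η b.1 <;> cases η b.2 <;> simp
      · rw [if_neg h1]

lemma gen_eq (p : ℤ → ℝ) (f : Config → ℝ) :
    gen p f = Pool.Agent.Q298.Excl.gen (rt p) f := by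
  funext η
  unfold gen Pool.Agent.Q298.Excl.gen
  refine tsum_congr fun b => ?_
  rw [hop_eq]
  rfl

lemma StepLaw.kern {p : ℤ → ℝ} (h : StepLaw p) : Kern p := ⟨h.nonneg, h.sum.summable, h.moment⟩

lemma InfInvariant.stat {p : ℤ → ℝ} {μ : Measure Config} (h : InfInvariant p μ) :
    Stat (rt p) μ := by
  intro f hf
  obtain ⟨A, hA⟩ := hf
  have h1 := h f ⟨A, fun η ζ e => hA η ζ e⟩
  rw [gen_eq] at h1
  exact h1

lemma int_ex (μ : Measure Config) [IsProbabilityMeasure μ] (x : ℤ) :
    ∫ η, ex x η ∂μ = (μ {η | η x = true}).toReal := by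
  have hm : MeasurableSet {η : Config | η x = true} :=
    measurableSet_eq_fun (measurable_pi_apply x) measurable_const
  have e : (fun η => ex x η) = {η : Config | η x = true}.indicator (fun _ => (1 : ℝ)) := by
    funext η
    rw [ex_apply]
    by_cases h : η x = true <;> simp [h]
  rw [e, integral_indicator_const _ hm]
  simp [Measure.real]

lemma profile_prof {p : ℤ → ℝ} {μ : Measure Config} [IsProbabilityMeasure μ]
    (h : InfInvariant p μ) (hP : Profile μ) : Prof p μ := by
  refine ⟨h.stat, ?_, ?_⟩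
  · have h1 := (ENNReal.tendsto_toReal ENNReal.zero_ne_top).comp hP.1
    rw [ENNReal.toReal_zero] at h1
    exact Tendsto.congr (fun x => (int_ex μ x).symm) h1
  · have h1 := (ENNReal.tendsto_toReal ENNReal.one_ne_top).comp hP.2
    rw [ENNReal.toReal_one] at h1
    exact Tendsto.congr (fun x => (int_ex μ x).symm) h1

/-- invariance under the semigroup gives infinitesimal invariance -/
lemma infInvariant_of_semigroup {p : ℤ → ℝ} (hp : StepLaw p) {P : ℝ≥0 → Kernel Config Config}
    (hP : ExclusionSemigroup p P) (μ : Measure Config) [IsProbabilityMeasure μ]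
    (hinv : ∀ t, (P t).Invariant μ) : InfInvariant p μ := by
  intro f hf
  obtain ⟨A, hA⟩ := hf
  have hcyl : Cyl f := ⟨A, fun η ζ e => hA η ζ e⟩
  have hfc : Continuous f := hcyl.continuous
  have hgc : Continuous (gen p f) := by
    rw [gen_eq]; exact gen_continuous (adm_rt hp.kern) hcyl
  have hgi : Integrable (gen p f) μ := integrable_C μ ⟨_, hgc⟩
  have hfi : ∀ (ν : Measure Config) [IsFiniteMeasure ν], Integrable f ν := fun ν _ =>
    integrable_C ν ⟨_, hfc⟩
  have hunif := hP.generator f ⟨A, hA⟩
  rw [Metric.tendstoUniformly_iff] at hunif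
  by_contra hne
  have hpos : 0 < |∫ η, gen p f η ∂μ| := abs_pos.2 hne
  have h1 := hunif _ (half_pos hpos)
  have h2 : ∀ᶠ t : ℝ≥0 in 𝓝[>] 0, (0 : ℝ≥0) < t := self_mem_nhdsWithin
  obtain ⟨t, ht, ht0⟩ := (h1.and h2).exists
  have := hP.markov t
  -- integrate the semigroup
  have hcomp : Integrable f ((P t) ∘ₘ μ) := by
    have e : (P t) ∘ₘ μ = μ := hinv t
    rw [e]; exact hfi μ
  have e1 : ∫ η, (∫ ζ, f ζ ∂(P t η)) ∂μ = ∫ η, f η ∂μ := by
    have e3 : ((P t) ∘ₖ (Kernel.const Unit μ)) () = (P t) ∘ₘ μ := by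
      rw [Measure.comp_eq_comp_const_apply]
    have h4 := Kernel.integral_comp (η := P t) (κ := Kernel.const Unit μ) (a := ()) (f := f)
      (by rw [e3]; exact hcomp)
    rw [e3, Kernel.const_apply] at h4
    have e : (P t) ∘ₘ μ = μ := hinv t
    rw [e] at h4
    exact h4.symm
  have hPi : Integrable (fun η => ∫ ζ, f ζ ∂(P t η)) μ := by
    have h4 : Integrable f (((P t) ∘ₖ (Kernel.const Unit μ)) ()) := by
      have e3 : ((P t) ∘ₖ (Kernel.const Unit μ)) () = (P t) ∘ₘ μ := by
        rw [Measure.comp_eq_comp_const_apply]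
      rw [e3]; exact hcomp
    have h5 := h4.integral_comp
    rwa [Kernel.const_apply] at h5
  have e2 : ∫ η, ((∫ ζ, f ζ ∂(P t η)) - f η) / t ∂μ = 0 := by
    rw [integral_div, integral_sub hPi (hfi μ), e1, sub_self, zero_div]
  have hqi : Integrable (fun η => ((∫ ζ, f ζ ∂(P t η)) - f η) / t) μ :=
    (hPi.sub (hfi μ)).div_const _
  have e4 : ∫ η, gen p f η ∂μ
      = ∫ η, (gen p f η - ((∫ ζ, f ζ ∂(P t η)) - f η) / t) ∂μ := by
    rw [integral_sub hgi hqi, e2, sub_zero]
  have hle : ‖∫ η, (gen p f η - ((∫ ζ, f ζ ∂(P t η)) - f η) / t) ∂μ‖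
      ≤ |∫ η, gen p f η ∂μ| / 2 * μ.real univ := by
    refine norm_integral_le_of_norm_le_const (Eventually.of_forall fun η => ?_)
    have h6 := ht η
    rw [Real.dist_eq] at h6
    exact h6.le
  rw [← e4, probReal_univ, mul_one, Real.norm_eq_abs] at hle
  linarith

lemma zeta_summable {s : ℝ} (hs : 1 < s) : Summable fun n : ℕ => ((n : ℝ) + 1) ^ (-s) := by
  have h := (Real.summable_nat_rpow (p := -s)).2 (by linarith)
  have h2 := (summable_nat_add_iff 1).2 h
  simpa using h2

lemma zetaSum_ge {s : ℝ} (hs : 1 < s) : 1 ≤ zetaSum s := by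
  have h := (zeta_summable hs).sum_le_tsum (Finset.range 1) (fun n _ => by positivity)
  simpa [zetaSum] using h

lemma zetaSum_le {s : ℝ} (hs : 2 < s) : zetaSum s ≤ zetaSum (s - 1) := by
  unfold zetaSum
  refine Summable.tsum_le_tsum (fun n => ?_) (zeta_summable (by linarith))
    (zeta_summable (by linarith))
  refine Real.rpow_le_rpow_of_exponent_le ?_ (by linarith)
  have : (0 : ℝ) ≤ n := Nat.cast_nonneg n
  linarith

section pw

variable {α : ℝ}

lemma pw_neg (k : ℕ) : powKernel α (-((k : ℤ) + 1))
    = (1 / (4 * zetaSum (α - 1))) * ((k : ℝ) + 1) ^ (-α) := by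
  unfold powKernel
  rw [if_pos (by omega)]
  push_cast
  rw [neg_neg]

lemma pw_one : powKernel α 1 = 1 - (1 / (4 * zetaSum (α - 1))) * zetaSum α := by
  unfold powKernel
  rw [if_neg (by omega), if_pos rfl]

lemma pw_other (k : ℤ) (h1 : 0 ≤ k) (h2 : k ≠ 1) : powKernel α k = 0 := by
  unfold powKernel
  rw [if_neg (by omega), if_neg h2]

lemma kap (h2 : 2 < α) : 0 < 1 / (4 * zetaSum (α - 1)) ∧
    (1 / (4 * zetaSum (α - 1))) * zetaSum (α - 1) = 1 / 4 ∧
    (1 / (4 * zetaSum (α - 1))) * zetaSum α ≤ 1 / 4 := by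
  have h1 := zetaSum_ge (s := α - 1) (by linarith)
  have h3 := zetaSum_le (s := α) h2
  have h0 : 0 < zetaSum (α - 1) := by linarith
  have e : (1 / (4 * zetaSum (α - 1))) * zetaSum (α - 1) = 1 / 4 := by field_simp
  refine ⟨by positivity, e, ?_⟩
  rw [← e]
  exact mul_le_mul_of_nonneg_left h3 (by positivity)

lemma pw_nonneg (h2 : 2 < α) (k : ℤ) : 0 ≤ powKernel α k := by
  obtain ⟨k1, k2, k3⟩ := kap h2
  unfold powKernel
  split_ifs with h h'
  · have : (0 : ℝ) ≤ -(k : ℝ) := by
      have : (k : ℝ) < 0 := by exact_mod_cast h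
      linarith
    positivity
  · linarith
  · exact le_rfl

/-- sums over `ℤ` of functions which vanish at all `k ≥ 0`, `k ≠ 1` -/
lemma hasSum_pw {f : ℤ → ℝ} (h0 : ∀ k : ℤ, 0 ≤ k → k ≠ 1 → f k = 0) {s : ℝ}
    (hs : HasSum (fun n : ℕ => f (-((n : ℤ) + 1))) s) : HasSum f (f 1 + s) := by
  refine HasSum.of_nat_of_neg_add_one ?_ hs
  have h := hasSum_single (f := fun n : ℕ => f n) 1 (fun n hn => h0 n (by omega) (by
    intro h; exact hn (by exact_mod_cast h)))
  simpa using h

lemma pw_law (h2 : 2 < α) : StepLaw (powKernel α) := by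
  obtain ⟨k1, k2, k3⟩ := kap h2
  refine ⟨pw_nonneg h2, ?_, ?_, ?_⟩
  · have h := hasSum_pw (f := powKernel α) (fun k hk hk1 => pw_other k hk hk1)
      (s := (1 / (4 * zetaSum (α - 1))) * zetaSum α) (by
        simp only [pw_neg]
        exact (zeta_summable (by linarith)).hasSum.mul_left _)
    rw [pw_one] at h
    convert h using 1
    ring
  · have h := hasSum_pw (f := fun k : ℤ => |(k : ℝ)| * powKernel α k)
      (fun k hk hk1 => by rw [pw_other k hk hk1, mul_zero])
      (s := (1 / (4 * zetaSum (α - 1))) * zetaSum (α - 1)) (by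
        have e : ∀ n : ℕ, |((-((n : ℤ) + 1) : ℤ) : ℝ)| * powKernel α (-((n : ℤ) + 1))
            = (1 / (4 * zetaSum (α - 1))) * ((n : ℝ) + 1) ^ (-(α - 1)) := by
          intro n
          have hn : (0 : ℝ) < (n : ℝ) + 1 := by positivity
          rw [pw_neg]
          push_cast
          rw [abs_neg, abs_of_pos hn, show -(α - 1) = -α + 1 by ring, Real.rpow_add_one hn.ne']
          ring
        simp only [e]
        exact (zeta_summable (by linarith)).hasSum.mul_left _)
    exact h.summable
  · rw [eq_top_iff]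
    intro k _
    have m1 : (1 : ℤ) ∈ AddSubmonoid.closure {k : ℤ | 0 < powKernel α k} := by
      refine AddSubmonoid.subset_closure ?_
      show 0 < powKernel α 1
      rw [pw_one]; linarith
    have m2 : (-1 : ℤ) ∈ AddSubmonoid.closure {k : ℤ | 0 < powKernel α k} := by
      refine AddSubmonoid.subset_closure ?_
      show 0 < powKernel α (-1)
      have := pw_neg (α := α) 0
      simp only [Nat.cast_zero, zero_add] at this
      rw [this, Real.one_rpow]
      linarith
    rcases le_total 0 k with h | h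
    · have e : k = k.toNat • (1 : ℤ) := by simp; omega
      rw [e]
      exact AddSubmonoid.nsmul_mem _ m1 _
    · have e : k = (-k).toNat • (-1 : ℤ) := by simp; omega
      rw [e]
      exact AddSubmonoid.nsmul_mem _ m2 _

lemma pw_H (h2 : 2 < α) (h3 : α ≤ 3) : HypH (powKernel α) := by
  obtain ⟨k1, k2, k3⟩ := kap h2
  refine ⟨pw_law h2, ?_, ?_⟩
  · have h := hasSum_pw (f := fun k : ℤ => (k : ℝ) * powKernel α k)
      (fun k hk hk1 => by rw [pw_other k hk hk1, mul_zero])
      (s := -((1 / (4 * zetaSum (α - 1))) * zetaSum (α - 1))) (by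
        have e : ∀ n : ℕ, ((-((n : ℤ) + 1) : ℤ) : ℝ) * powKernel α (-((n : ℤ) + 1))
            = -((1 / (4 * zetaSum (α - 1))) * ((n : ℝ) + 1) ^ (-(α - 1))) := by
          intro n
          have hn : (0 : ℝ) < (n : ℝ) + 1 := by positivity
          rw [pw_neg]
          push_cast
          rw [show -(α - 1) = -α + 1 by ring, Real.rpow_add_one hn.ne']
          ring
        simp only [e]
        exact ((zeta_summable (by linarith)).hasSum.mul_left _).neg)
    rw [h.tsum_eq, k2]
    simp only [Int.cast_one, one_mul]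
    rw [pw_one]
    linarith
  · intro hsum
    have h4 : Summable fun n : ℕ => (1 / (4 * zetaSum (α - 1))) * (((n + 1 : ℕ) : ℝ)) ^ (2 - α) := by
      have h5 := (summable_nat_add_iff 1).2 hsum
      refine h5.congr fun n => ?_
      have hn : (0 : ℝ) < (n : ℝ) + 1 := by positivity
      have := pw_neg (α := α) n
      push_cast
      rw [this, show (2 : ℝ) - α = -α + 2 by ring, Real.rpow_add hn, Real.rpow_two]
      ring
    have h6 : Summable fun n : ℕ => (((n + 1 : ℕ) : ℝ)) ^ (2 - α) := by
      refine (h4.mul_left (1 / (4 * zetaSum (α - 1)))⁻¹).congr fun n => ?_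
      rw [← mul_assoc, inv_mul_cancel₀ k1.ne', one_mul]
    have h7 := (summable_nat_add_iff (f := fun n : ℕ => (n : ℝ) ^ (2 - α)) 1).1 h6
    rw [Real.summable_nat_rpow] at h7
    linarith

end pw

lemma golden {α : ℝ} (h2 : 2 < α) (h3 : α < (3 + √5) / 2) : α ^ 2 - 3 * α + 1 < 0 := by
  have h5 : √5 ^ 2 = 5 := Real.sq_sqrt (by norm_num)
  have h50 : 0 ≤ √5 := Real.sqrt_nonneg 5
  have h6 : 0 < α - (3 - √5) / 2 := by linarith
  have h7 : 0 < (3 + √5) / 2 - α := by linarith
  nlinarith [mul_pos h6 h7]

lemma golden3 {α : ℝ} (h3 : α < (3 + √5) / 2) : α ≤ 3 := by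
  have h5 : √5 ≤ 3 := by
    rw [Real.sqrt_le_left (by norm_num)]
    norm_num
  linarith

end bridge

/-- **Main result.**

1. If `p` is the step distribution of an irreducible random walk with finite first absolute moment
and `p` has a heavy left tail (`LeftHeavy p`), then no probability measure that is infinitesimally
invariant for the exclusion process with kernel `p (y - x)`, and no stationary distribution of a
Markov semigroup with that generator, satisfies both limits of the problem.

2. `LeftHeavy p` holds as soon as `p (-k) ≥ c * k ^ (-α)` for all large `k`, for some `c > 0` and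
some `α` with `2 < α < (3 + √5) / 2`.

3. For each such `α` the explicit kernel `powKernel α` satisfies (H) and `LeftHeavy`; hence for it
the answer to Q1 is negative. -/
theorem result :
    (∀ p : ℤ → ℝ, StepLaw p → LeftHeavy p →
      (∀ μ : Measure Config, IsProbabilityMeasure μ → InfInvariant p μ → ¬ Profile μ) ∧
      (∀ P : ℝ≥0 → Kernel Config Config, ExclusionSemigroup p P →
        ∀ μ : Measure Config, IsProbabilityMeasure μ → (∀ t, (P t).Invariant μ) →
          ¬ Profile μ)) ∧
    (∀ p : ℤ → ℝ, StepLaw p → ∀ α c : ℝ, 2 < α → α < (3 + √5) / 2 → 0 < c →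
      (∀ᶠ k : ℕ in atTop, c * (k : ℝ) ^ (-α) ≤ p (-(k : ℤ))) → LeftHeavy p) ∧
    (∀ α : ℝ, 2 < α → α < (3 + √5) / 2 → HypH (powKernel α) ∧ LeftHeavy (powKernel α)) := by
  refine ⟨?_, ?_, ?_⟩
  · intro p hp hH
    have key : ∀ μ : Measure Config, IsProbabilityMeasure μ → InfInvariant p μ →
        ¬ Profile μ := by
      intro μ hμ hinv hprof
      exact Pool.Agent.Q298.Excl.no_profile hp.kern hp.irred hH μ (profile_prof hinv hprof)
    refine ⟨key, ?_⟩
    intro P hP μ hμ hinv
    exact key μ hμ (infInvariant_of_semigroup hp hP μ hinv)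
  · intro p hp α c h2 h3 hc hpow
    exact Pool.Agent.Q298.Excl.heavy_of_pow hp.kern h2 (golden h2 h3) hc hpow
  · intro α h2 h3
    have hH := pw_H h2 (golden3 h3)
    refine ⟨hH, ?_⟩
    refine Pool.Agent.Q298.Excl.heavy_of_pow (c := 1 / (4 * zetaSum (α - 1))) hH.toStepLaw.kern h2
      (golden h2 h3) (kap h2).1 ?_
    filter_upwards [eventually_ge_atTop 1] with k hk
    obtain ⟨n, rfl⟩ : ∃ n, k = n + 1 := ⟨k - 1, by omega⟩
    have := pw_neg (α := α) n
    push_cast
    rw [this]

end Pool.Agent.Results.MP_8cded5_pr.NoProfileMeasure
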